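import Pool.Agent.Helper6.PW.LLAT

/-!
# Project PW (MP_fc6b1e_nt), packet L_IDX: the norm of a cyclic extension of degree `p` is not surjective
-/

set_option autoImplicit false

namespace Pool.Agent.Helper6.PW

open Module Finset

/-- The Herbrand quotient of a finite group is `1`. -/
theorem herbrand {G : Type} [CommGroup G] (V : Subgroup G) [Finite (G ⧸ V)] (d M : G →* G)
    (hd : V ≤ V.comap d) (hM : V ≤ V.comap M) (h1 : ∀ g, M (d g) = 1) (h2 : ∀ g, d (M g) = 1)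
    (h3 : ∀ g, d g ∈ V → ∃ v ∈ V, ∃ t, g = v * M t) (g : G) (hg : M g ∈ V) :
    ∃ y, ∃ v ∈ V, g = d y * v := by
  set dA := QuotientGroup.map V V d hd with hdA
  set MA := QuotientGroup.map V V M hM with hMA
  have e1 : MA.range = dA.ker := by
    apply le_antisymm
    · rintro _ ⟨x, rfl⟩
      obtain ⟨x, rfl⟩ := QuotientGroup.mk_surjective x
      rw [MonoidHom.mem_ker, hMA, hdA, QuotientGroup.map_mk, QuotientGroup.map_mk, h2]
      rfl
    · intro x hx
      obtain ⟨x, rfl⟩ := QuotientGroup.mk_surjective x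
      rw [MonoidHom.mem_ker, hdA, QuotientGroup.map_mk, QuotientGroup.eq_one_iff] at hx
      obtain ⟨v, hv, t, rfl⟩ := h3 x hx
      refine ⟨(t : G ⧸ V), ?_⟩
      rw [hMA, QuotientGroup.map_mk, QuotientGroup.eq, mul_comm, mul_assoc, mul_inv_cancel, mul_one]
      exact hv
  have e2 : dA.range ≤ MA.ker := by
    rintro _ ⟨x, rfl⟩
    obtain ⟨x, rfl⟩ := QuotientGroup.mk_surjective x
    rw [MonoidHom.mem_ker, hMA, hdA, QuotientGroup.map_mk, QuotientGroup.map_mk, h1]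
    rfl
  have c1 : Nat.card dA.ker * Nat.card dA.range = Nat.card (G ⧸ V) := by
    rw [← Subgroup.index_ker]
    exact dA.ker.card_mul_index
  have c2 : Nat.card MA.ker * Nat.card MA.range = Nat.card (G ⧸ V) := by
    rw [← Subgroup.index_ker]
    exact MA.ker.card_mul_index
  have c3 : Nat.card dA.range = Nat.card MA.ker := by
    rw [e1] at c2
    have c4 : 0 < Nat.card dA.ker := Nat.card_pos
    have c5 : Nat.card dA.ker * Nat.card dA.range = Nat.card dA.ker * Nat.card MA.ker := by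
      rw [c1, ← c2, mul_comm]
    exact Nat.eq_of_mul_eq_mul_left c4 c5
  have e3 : dA.range = MA.ker := Subgroup.eq_of_le_of_card_ge e2 c3.ge
  have e4 : (g : G ⧸ V) ∈ MA.ker := by
    rw [MonoidHom.mem_ker, hMA, QuotientGroup.map_mk, QuotientGroup.eq_one_iff]
    exact hg
  rw [← e3] at e4
  obtain ⟨y, hy⟩ := e4
  obtain ⟨y, rfl⟩ := QuotientGroup.mk_surjective y
  rw [hdA, QuotientGroup.map_mk, QuotientGroup.eq] at hy
  exact ⟨y, _, hy, by rw [mul_inv_cancel_left]⟩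

theorem fixA {G : Type} [CommGroup G] (s : G →* G) {u z : G} (h : s z = s u / u * z) :
    s (u / z) = u / z := by
  rw [map_div, h, ← div_div, div_div_cancel]

section

variable {p : ℕ} [hp : Fact p.Prime] {H : Type} [NormedField H] [NormedAlgebra ℚ_[p] H]
    [IsUltrametricDist H] [FiniteDimensional ℚ_[p] H] {σ : H ≃ₐ[ℚ_[p]] H}

/-- The elements of norm `1`. -/
def UU (H : Type) [NormedField H] : Subgroup Hˣ where
  carrier := {u | ‖(u : H)‖ = 1}
  mul_mem' := fun {a b} ha hb => by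
    simp only [Set.mem_ofPred_eq] at ha hb ⊢
    rw [Units.val_mul, norm_mul, ha, hb, one_mul]
  one_mem' := by
    simp
  inv_mem' := fun {a} ha => by
    simp only [Set.mem_ofPred_eq] at ha ⊢
    rw [Units.val_inv_eq_inv_val, norm_inv, ha, inv_one]

theorem mem_UU (u : Hˣ) : u ∈ UU H ↔ ‖(u : H)‖ = 1 := Iff.rfl

/-- The action on the units. -/
noncomputable def sU (σ : H ≃ₐ[ℚ_[p]] H) : Hˣ →* Hˣ := Units.map (σ : H →* H)

/-- The norm on the units. -/
noncomputable def mU (σ : H ≃ₐ[ℚ_[p]] H) : Hˣ →* Hˣ :=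
  ∏ i ∈ range p, Units.map ((σ ^ i : H ≃ₐ[ℚ_[p]] H) : H →* H)

theorem mU_val (σ : H ≃ₐ[ℚ_[p]] H) (u : Hˣ) : ((mU σ u : Hˣ) : H) = nm σ (u : H) := by
  unfold mU nm
  rw [MonoidHom.finsetProd_apply, Units.coe_prod]
  rfl

/-- The quotient `σ(u)/u`. -/
noncomputable def dU (σ : H ≃ₐ[ℚ_[p]] H) : Hˣ →* Hˣ := sU σ / MonoidHom.id Hˣ

theorem dU_apply (σ : H ≃ₐ[ℚ_[p]] H) (u : Hˣ) : dU σ u = sU σ u / u := rfl

theorem nm_sigma (hσ : orderOf σ = p) (x : H) : nm σ (σ x) = nm σ x := by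
  rw [← nm_act hσ x]
  unfold nm
  rw [map_prod]
  refine Finset.prod_congr rfl fun i _ => ?_
  show (σ ^ i * σ) x = (σ * σ ^ i) x
  rw [← pow_succ, ← pow_succ']

theorem l_idx (h1 : Pool.Agent.Helper42.PW.L_ISO) (h2 : Pool.Agent.Helper42.PW.L_LAT) :
    Pool.Agent.Helper42.PW.L_IDX := by
  classical
  intro p hp H _ _ _ _ σ hσ
  by_contra hcon
  push Not at hcon
  have hiso : ∀ x, ‖σ x‖ = ‖x‖ := h1 p H σ
  have hisoi : ∀ (i : ℕ) (x : H), ‖(σ ^ i) x‖ = ‖x‖ := fun i x => h1 p H (σ ^ i) x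
  have hnm : ∀ x : H, ‖nm σ x‖ = ‖x‖ ^ p := by
    intro x
    unfold nm
    rw [norm_prod]
    simp only [hisoi, Finset.prod_const, Finset.card_range]
  have hcon' : ∀ u : H, u ≠ 0 → σ u = u → ∃ z : H, nm σ z = u := hcon
  obtain ⟨V, r, hr, hVs, hVr, hV1, hV0, hVH⟩ := h2 p H σ hσ
  have hprop : ProperSpace H := FiniteDimensional.proper ℚ_[p] H
  have hVU : V ≤ UU H := hV1
  -- the quotient is finite
  have hfin : Finite (UU H ⧸ V.subgroupOf (UU H)) := by
    obtain ⟨t, ht, htf, hcov⟩ := (isCompact_sphere (0 : H) 1).finite_cover_balls hr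
    have hmem : ∀ x ∈ t, ‖x‖ = 1 := fun x hx => by
      have := ht hx
      rwa [mem_sphere_zero_iff_norm] at this
    let F : t → UU H ⧸ V.subgroupOf (UU H) := fun x =>
      ((⟨Units.mk0 x.1 (by
        intro h0
        have := hmem x.1 x.2
        rw [h0, norm_zero] at this
        exact zero_ne_one this), hmem x.1 x.2⟩ : UU H) : UU H ⧸ V.subgroupOf (UU H))
    have := htf.to_subtype
    refine Finite.of_surjective F fun y => ?_
    obtain ⟨u, rfl⟩ := QuotientGroup.mk_surjective y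
    have hu : ‖((u : Hˣ) : H)‖ = 1 := u.2
    have h3 := hcov (show ((u : Hˣ) : H) ∈ Metric.sphere (0 : H) 1 by
      rw [mem_sphere_zero_iff_norm]; exact hu)
    simp only [Set.mem_iUnion, Metric.mem_ball] at h3
    obtain ⟨x, hx, hxu⟩ := h3
    refine ⟨⟨x, hx⟩, ?_⟩
    show ((_ : UU H) : UU H ⧸ V.subgroupOf (UU H)) = _
    rw [QuotientGroup.eq, Subgroup.mem_subgroupOf]
    apply hVr
    have hx1 := hmem x hx
    have hx0 : x ≠ 0 := by
      intro h0
      rw [h0, norm_zero] at hx1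
      exact zero_ne_one hx1
    have e : ((((⟨Units.mk0 x hx0, hx1⟩ : UU H)⁻¹ * u : UU H) : Hˣ) : H) - 1 =
        x⁻¹ * (((u : Hˣ) : H) - x) := by
      push_cast
      rw [mul_sub, inv_mul_cancel₀ hx0]
      rfl
    have e2 : ‖((((⟨Units.mk0 x hx0, hx1⟩ : UU H)⁻¹ * u : UU H) : Hˣ) : H) - 1‖ ≤ r := by
      rw [e, norm_mul, norm_inv, hx1, inv_one, one_mul, ← dist_eq_norm]
      exact hxu.le
    exact e2
  -- the maps
  have hsU : ∀ u ∈ UU H, sU σ u ∈ UU H := fun u hu => by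
    rw [mem_UU]
    show ‖σ (u : H)‖ = 1
    rw [hiso]
    exact hu
  have hdU : ∀ u ∈ UU H, dU σ u ∈ UU H := fun u hu => by
    rw [dU_apply]
    exact Subgroup.div_mem _ (hsU u hu) hu
  have hmU : ∀ u ∈ UU H, mU σ u ∈ UU H := fun u hu => by
    rw [mem_UU, mU_val, hnm]
    rw [mem_UU] at hu
    rw [hu, one_pow]
  let d : UU H →* UU H := ((dU σ).comp (UU H).subtype).codRestrict (UU H) fun u => hdU _ u.2
  let M : UU H →* UU H := ((mU σ).comp (UU H).subtype).codRestrict (UU H) fun u => hmU _ u.2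
  have hd : ∀ u : UU H, ((d u : UU H) : Hˣ) = dU σ (u : Hˣ) := fun _ => rfl
  have hM : ∀ u : UU H, ((M u : UU H) : Hˣ) = mU σ (u : Hˣ) := fun _ => rfl
  have hMd : ∀ u : Hˣ, mU σ (dU σ u) = 1 := by
    intro u
    apply Units.ext
    rw [dU_apply, map_div, Units.val_div_eq_div_val, mU_val, mU_val]
    show nm σ (σ (u : H)) / nm σ (u : H) = _
    rw [nm_sigma hσ]
    have h0 : nm σ (u : H) ≠ 0 := by
      rw [← mU_val]
      exact Units.ne_zero _
    rw [div_self h0, Units.val_one]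
  have hdM : ∀ u : Hˣ, dU σ (mU σ u) = 1 := by
    intro u
    apply Units.ext
    rw [dU_apply, Units.val_div_eq_div_val]
    show σ ((mU σ u : Hˣ) : H) / ((mU σ u : Hˣ) : H) = _
    rw [mU_val, nm_act hσ]
    have h0 : nm σ (u : H) ≠ 0 := by
      rw [← mU_val]
      exact Units.ne_zero _
    rw [div_self h0, Units.val_one]
  have hVd : ∀ v ∈ V, dU σ v ∈ V := fun v hv => by
    rw [dU_apply]
    exact Subgroup.div_mem _ (hVs v hv) hv
  have hVsi : ∀ (i : ℕ), ∀ v ∈ V, Units.map ((σ ^ i : H ≃ₐ[ℚ_[p]] H) : H →* H) v ∈ V := by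
    intro i
    induction i with
    | zero =>
      intro v hv
      have e : Units.map ((σ ^ 0 : H ≃ₐ[ℚ_[p]] H) : H →* H) v = v := Units.ext rfl
      rw [e]
      exact hv
    | succ i ih =>
      intro v hv
      have e : Units.map ((σ ^ (i + 1) : H ≃ₐ[ℚ_[p]] H) : H →* H) v =
          Units.map ((σ ^ i : H ≃ₐ[ℚ_[p]] H) : H →* H) (Units.map (σ : H →* H) v) := by
        apply Units.ext
        show (σ ^ (i + 1)) (v : H) = (σ ^ i) (σ (v : H))
        rw [pow_succ]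
        rfl
      rw [e]
      exact ih _ (hVs v hv)
  have hVM : ∀ v ∈ V, mU σ v ∈ V := fun v hv => by
    unfold mU
    rw [MonoidHom.finsetProd_apply]
    exact Subgroup.prod_mem _ fun i _ => hVsi i v hv
  have hkey := herbrand (V.subgroupOf (UU H)) d M
    (fun u hu => by
      rw [Subgroup.mem_comap, Subgroup.mem_subgroupOf, hd]
      exact hVd _ hu)
    (fun u hu => by
      rw [Subgroup.mem_comap, Subgroup.mem_subgroupOf, hM]
      exact hVM _ hu)
    (fun u => Subtype.ext (by rw [hM, hd, hMd]; rfl))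
    (fun u => Subtype.ext (by rw [hd, hM, hdM]; rfl))
    (fun u hu => by
      rw [Subgroup.mem_subgroupOf, hd] at hu
      -- `σ(u)/u = σ(z)/z`
      obtain ⟨z, hz, hz1⟩ := hVH _ hu (by
        have := congrArg (fun x : Hˣ => (x : H)) (hMd (u : Hˣ))
        rw [mU_val] at this
        exact this)
      have hz2 : sU σ z = dU σ (u : Hˣ) * z := Units.ext hz1
      have hfix : sU σ ((u : Hˣ) / z) = (u : Hˣ) / z := fixA (sU σ) hz2
      obtain ⟨t, ht⟩ := hcon' (((u : Hˣ) / z : Hˣ) : H) (Units.ne_zero _)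
        (congrArg (fun x : Hˣ => (x : H)) hfix)
      have hu1 : ‖((u : Hˣ) : H)‖ = 1 := u.2
      have hz3 : ‖(z : H)‖ = 1 := hV1 z hz
      have ht1 : ‖t‖ = 1 := by
        have h3 := hnm t
        rw [ht, Units.val_div_eq_div_val, norm_div, hu1, hz3, div_one] at h3
        exact (pow_eq_one_iff_of_nonneg (norm_nonneg t) hp.out.ne_zero).1 h3.symm
      have ht0 : t ≠ 0 := by
        intro h0
        rw [h0, norm_zero] at ht1
        exact zero_ne_one ht1
      refine ⟨⟨z, hVU hz⟩, hz, ⟨Units.mk0 t ht0, ht1⟩, ?_⟩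
      apply Subtype.ext
      apply Units.ext
      have e : ((mU σ (Units.mk0 t ht0) : Hˣ) : H) = ((u : Hˣ) : H) / (z : H) := by
        rw [mU_val]
        show nm σ t = _
        rw [ht, Units.val_div_eq_div_val]
      show ((u : Hˣ) : H) = (z : H) * ((mU σ (Units.mk0 t ht0) : Hˣ) : H)
      rw [e, mul_div_cancel₀ _ z.ne_zero])
  -- the uniformizer
  obtain ⟨π, hπ1, hπ2, hπ3⟩ : ∃ π : H, π ≠ 0 ∧ ‖π‖ < 1 ∧ ∀ z : H, ‖z‖ < 1 → ‖z‖ ≤ ‖π‖ := by
    have hc : IsCompact (Metric.ball (0 : H) 1) :=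
      Metric.isCompact_of_isClosed_isBounded (IsUltrametricDist.isClosed_ball 0 1)
        Metric.isBounded_ball
    obtain ⟨π, hπ, hmax⟩ := hc.exists_isMaxOn ⟨0, by simp⟩ continuous_norm.continuousOn
    have hmax' : ∀ z : H, ‖z‖ < 1 → ‖z‖ ≤ ‖π‖ := fun z hz =>
      (isMaxOn_iff.1 hmax) z (by rwa [mem_ball_zero_iff])
    refine ⟨π, ?_, by rwa [mem_ball_zero_iff] at hπ, hmax'⟩
    have hp1 : ‖(p : H)‖ < 1 ∧ ‖(p : H)‖ ≠ 0 := by
      have e : (p : H) = algebraMap ℚ_[p] H (p : ℚ_[p]) := by rw [map_natCast]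
      rw [e, norm_algebraMap', Padic.norm_p]
      have h2 := hp.out.one_lt
      have h3 : (1 : ℝ) < p := by exact_mod_cast h2
      exact ⟨inv_lt_one_of_one_lt₀ h3, by positivity⟩
    rintro rfl
    have h3 := hmax' _ hp1.1
    rw [norm_zero] at h3
    exact hp1.2 (le_antisymm h3 (norm_nonneg _))
  -- `σ(π)/π = σ(t)/t`
  let w : Hˣ := Units.mk0 π hπ1
  have hxU : dU σ w ∈ UU H := by
    rw [mem_UU, dU_apply, Units.val_div_eq_div_val]
    show ‖σ π / π‖ = 1
    rw [norm_div, hiso, div_self (norm_ne_zero_iff.2 hπ1)]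
  obtain ⟨y, v, hv, hyv⟩ := hkey ⟨dU σ w, hxU⟩ (by
    have e : M ⟨dU σ w, hxU⟩ = 1 := Subtype.ext (hMd w)
    rw [e]
    exact Subgroup.one_mem _)
  have hyv' : dU σ w = dU σ (y : Hˣ) * (v : Hˣ) := congrArg Subtype.val hyv
  have hv1 : mU σ (v : Hˣ) = 1 := by
    have h3 := hMd w
    rw [hyv', map_mul, hMd, one_mul] at h3
    exact h3
  obtain ⟨z, hz, hz1⟩ := hVH (v : Hˣ) hv (by
    have := congrArg (fun x : Hˣ => (x : H)) hv1
    rw [mU_val] at this
    exact this)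
  have hz2 : sU σ z = (v : Hˣ) * z := Units.ext hz1
  have hfix : sU σ (w / (y * z)) = w / (y * z) := by
    apply fixA
    have h3 : sU σ w / w = sU σ (y : Hˣ) / (y : Hˣ) * (v : Hˣ) := hyv'
    rw [map_mul, hz2, h3, mul_mul_mul_comm, div_mul_cancel]
  obtain ⟨s, hs⟩ := hcon' ((w / (y * z) : Hˣ) : H) (Units.ne_zero _)
    (congrArg (fun x : Hˣ => (x : H)) hfix)
  have hy1 : ‖((y : Hˣ) : H)‖ = 1 := y.2
  have hz3 : ‖(z : H)‖ = 1 := hV1 z hz
  have h4 : ‖s‖ ^ p = ‖π‖ := by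
    rw [← hnm, hs, Units.val_div_eq_div_val, Units.val_mul, norm_div, norm_mul, hy1, hz3]
    show ‖π‖ / (1 * 1) = ‖π‖
    rw [mul_one, div_one]
  have h5 : ‖s‖ < 1 := by
    by_contra hge
    push Not at hge
    have := one_le_pow₀ hge (n := p)
    rw [h4] at this
    exact absurd hπ2 (not_lt.2 this)
  have h6 := hπ3 s h5
  have h7 : 0 < ‖s‖ := by
    rcases eq_or_lt_of_le (norm_nonneg s) with h | h
    · rw [← h, zero_pow hp.out.ne_zero] at h4
      exact absurd h4.symm (norm_ne_zero_iff.2 hπ1)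
    · exact h
  have h8 : ‖s‖ ^ p < ‖s‖ := by
    have := pow_lt_pow_right_of_lt_one₀ h7 h5 hp.out.one_lt
    rwa [pow_one] at this
  rw [h4] at h8
  exact absurd h8 (not_lt.2 h6)

end

end Pool.Agent.Helper6.PW
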