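import Pool.Agent.Helper6.PW.Lat1
import Pool.Agent.Helper42.PW.Goals1

/-!
# Project PW (MP_fc6b1e_nt), packet L_LAT: a cohomologically trivial subgroup of the units
-/

set_option autoImplicit false

namespace Pool.Agent.Helper6.PW

open Module Finset

section

variable {p : ℕ} [hp : Fact p.Prime] {H : Type} [NormedField H] [NormedAlgebra ℚ_[p] H]
    [IsUltrametricDist H] [FiniteDimensional ℚ_[p] H] {σ : H ≃ₐ[ℚ_[p]] H} {N : H → ℝ} {B B' : ℝ}

/-- The norm of an element. -/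
noncomputable def nm (σ : H ≃ₐ[ℚ_[p]] H) (z : H) : H := ∏ i ∈ range p, (σ ^ i) z

omit [IsUltrametricDist H] [FiniteDimensional ℚ_[p] H] in
theorem nm_mul (x y : H) : nm σ (x * y) = nm σ x * nm σ y := by
  unfold nm
  rw [← Finset.prod_mul_distrib]
  exact Finset.prod_congr rfl fun i _ => map_mul _ _ _

omit [IsUltrametricDist H] [FiniteDimensional ℚ_[p] H] in
theorem nm_one : nm σ (1 : H) = 1 := by
  unfold nm
  exact Finset.prod_eq_one fun i _ => map_one _

omit [IsUltrametricDist H] [FiniteDimensional ℚ_[p] H] in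
theorem nm_act (hσ : orderOf σ = p) (x : H) : σ (nm σ x) = nm σ x := by
  unfold nm
  rw [map_prod]
  have h1 : ∀ i, σ ((σ ^ i) x) = (σ ^ (i + 1)) x := by
    intro i
    rw [pow_succ']
    rfl
  simp only [h1]
  have h2 := Finset.prod_range_succ (fun i => (σ ^ i) x) p
  rw [Finset.prod_range_succ'] at h2
  have h3 : (σ ^ p) x = (σ ^ 0) x := by
    have h5 : σ ^ p = 1 := by
      have h6 := pow_orderOf_eq_one σ
      rwa [hσ] at h6
    rw [h5, pow_zero]
  rw [h3] at h2
  by_cases hx : x = 0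
  · subst hx
    have hp0 : range p ≠ ∅ := by
      rw [Ne, Finset.range_eq_empty_iff]
      exact hp.out.ne_zero
    obtain ⟨j, hj⟩ := Finset.nonempty_iff_ne_empty.2 hp0
    rw [Finset.prod_eq_zero hj (map_zero _), Finset.prod_eq_zero hj (map_zero _)]
  · have h4 : (σ ^ 0) x ≠ 0 := by
      rw [pow_zero]
      exact hx
    exact mul_right_cancel₀ h4 h2

namespace Nrm

variable (h : Nrm p σ N B B')

include h

omit [IsUltrametricDist H] [FiniteDimensional ℚ_[p] H]

theorem sub (x y : H) : N (x - y) ≤ max (N x) (N y) := by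
  rw [sub_eq_add_neg]
  exact (h.add _ _).trans (le_of_eq (by rw [h.neg]))

theorem inv_pow (i : ℕ) (x : H) : N ((σ ^ i) x) = N x := by
  induction i with
  | zero => rfl
  | succ n ih =>
    rw [pow_succ']
    show N (σ ((σ ^ n) x)) = N x
    rw [h.inv, ih]

/-- Multiplication by a unit close to `1`. -/
theorem absorb {u : H} (hu : N (u - 1) ≤ 1) (a : H) : N (a * u) ≤ N a := by
  have e : a * u = a + a * (u - 1) := by ring
  rw [e]
  refine (h.add _ _).trans (max_le le_rfl ((h.mul _ _).trans ?_))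
  exact mul_le_of_le_one_right (h.nonneg _) hu

theorem mul_close {u v : H} {s : ℝ} (hs : s ≤ 1) (hu : N (u - 1) ≤ s) (hv : N (v - 1) ≤ s) :
    N (u * v - 1) ≤ s := by
  have e : u * v - 1 = (u - 1) * v + (v - 1) := by ring
  rw [e]
  exact (h.add _ _).trans (max_le ((h.absorb (hv.trans hs) _).trans hu) hv)

theorem inv_close {u : H} (hu0 : u ≠ 0) {s : ℝ} (hs : s < 1) (hu : N (u - 1) ≤ s) :
    N (u⁻¹ - 1) ≤ s := by
  set y := u⁻¹ - 1 with hy
  have e : y = -(u - 1) - (u - 1) * y := by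
    rw [hy]
    field_simp
    ring
  have h1 : N y ≤ max (N (u - 1)) (N (u - 1) * N y) := by
    conv_lhs => rw [e]
    refine (h.sub _ _).trans (max_le_max ?_ (h.mul _ _))
    rw [h.neg]
  rcases le_max_iff.1 h1 with h2 | h2
  · exact h2.trans hu
  · have h3 := h.nonneg y
    have h4 : N y ≤ s * N y := h2.trans (mul_le_mul_of_nonneg_right hu h3)
    have h5 : N y = 0 := by nlinarith
    rw [h5]
    exact (h.nonneg _).trans hu

/-- Products of elements close to `1`. -/
theorem prod_close (x : ℕ → H) {s : ℝ} (hs0 : 0 ≤ s) (hs : s ≤ 1) (hx : ∀ i, N (x i) ≤ s)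
    (m : ℕ) : N (∑ i ∈ range m, x i) ≤ s ∧ N (∏ i ∈ range m, (1 + x i) - 1) ≤ s ∧
      N (∏ i ∈ range m, (1 + x i) - 1 - ∑ i ∈ range m, x i) ≤ s ^ 2 := by
  induction m with
  | zero =>
    simp only [Finset.range_zero, Finset.sum_empty, Finset.prod_empty, sub_self, h.zero]
    exact ⟨hs0, hs0, by positivity⟩
  | succ m ih =>
    obtain ⟨h1, h2, h3⟩ := ih
    have h4 : N ((1 + x m) - 1) ≤ s := by
      rw [add_sub_cancel_left]
      exact hx m
    refine ⟨?_, ?_, ?_⟩
    · rw [Finset.sum_range_succ]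
      exact (h.add _ _).trans (max_le h1 (hx m))
    · rw [Finset.prod_range_succ]
      exact h.mul_close hs h2 h4
    · rw [Finset.prod_range_succ, Finset.sum_range_succ]
      have e : (∏ i ∈ range m, (1 + x i)) * (1 + x m) - 1 - (∑ i ∈ range m, x i + x m) =
          (∏ i ∈ range m, (1 + x i) - 1 - ∑ i ∈ range m, x i) * (1 + x m) +
            (∑ i ∈ range m, x i) * x m := by ring
      rw [e]
      refine (h.add _ _).trans (max_le ((h.absorb (h4.trans hs) _).trans h3) ?_)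
      refine (h.mul _ _).trans ?_
      rw [pow_two]
      exact mul_le_mul h1 (hx m) (h.nonneg _) hs0

theorem nm_close {y : H} {s : ℝ} (hs0 : 0 ≤ s) (hs : s ≤ 1) (hy : N y ≤ s) :
    N (nm σ (1 + y) - 1) ≤ s ∧ N (nm σ (1 + y) - 1 - ∑ i ∈ range p, (σ ^ i) y) ≤ s ^ 2 := by
  have e : nm σ (1 + y) = ∏ i ∈ range p, (1 + (σ ^ i) y) := by
    unfold nm
    exact Finset.prod_congr rfl fun i _ => by rw [map_add, map_one]
  rw [e]
  have := h.prod_close (fun i => (σ ^ i) y) hs0 hs (fun i => by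
    show N ((σ ^ i) y) ≤ s
    rw [h.inv_pow]; exact hy) p
  exact ⟨this.2.1, this.2.2⟩

end Nrm

/-- The step for `H⁰`. -/
theorem step0 (h : Nrm p σ N B B') {w : H} (hw : σ w = w) {s : ℝ} (hs0 : 0 ≤ s) (hs : s < 1)
    (hws : N (w - 1) ≤ s) (hne : ∀ u : H, N (u - 1) < 1 → u ≠ 0) :
    ∃ y : H, N y ≤ s ∧ N (w * (nm σ (1 + y))⁻¹ - 1) ≤ s ^ 2 := by
  obtain ⟨y, hy1, hy2⟩ := h.h0 (w - 1) (by rw [map_sub, map_one, hw])
  have hys : N y ≤ s := hy2.trans hws
  obtain ⟨h1, h2⟩ := h.nm_close hs0 hs.le hys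
  rw [hy1] at h2
  have hn0 : nm σ (1 + y) ≠ 0 := hne _ (h1.trans_lt hs)
  refine ⟨y, hys, ?_⟩
  have e : w * (nm σ (1 + y))⁻¹ - 1 =
      (-(nm σ (1 + y) - 1 - (w - 1))) * (nm σ (1 + y))⁻¹ := by
    field_simp
    ring
  rw [e]
  refine (h.absorb ((h.inv_close hn0 hs h1).trans hs.le) _).trans ?_
  rw [h.neg]
  exact h2

omit [IsUltrametricDist H] [FiniteDimensional ℚ_[p] H] in
theorem tr_act (hσ : orderOf σ = p) (x : H) :
    σ (∑ i ∈ range p, (σ ^ i) x) = ∑ i ∈ range p, (σ ^ i) x := by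
  rw [map_sum]
  have h1 : ∀ i, σ ((σ ^ i) x) = (σ ^ (i + 1)) x := by
    intro i
    rw [pow_succ']
    rfl
  simp only [h1]
  have h2 := Finset.sum_range_succ (fun i => (σ ^ i) x) p
  rw [Finset.sum_range_succ'] at h2
  have h3 : (σ ^ p) x = (σ ^ 0) x := by
    have h5 : σ ^ p = 1 := by
      have h6 := pow_orderOf_eq_one σ
      rwa [hσ] at h6
    rw [h5, pow_zero]
  rw [h3] at h2
  exact add_right_cancel h2

/-- The step for `H¹`. -/
theorem step1 (h : Nrm p σ N B B') (hσ : orderOf σ = p) {w : H} (hw : nm σ w = 1) {s : ℝ}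
    (hs0 : 0 ≤ s) (hs : s < 1) (hws : N (w - 1) ≤ s) (hne : ∀ u : H, N (u - 1) < 1 → u ≠ 0) :
    ∃ y : H, N y ≤ s ∧ N (w * (1 + y) * (σ (1 + y))⁻¹ - 1) ≤ s ^ 2 := by
  obtain ⟨x, ew⟩ : ∃ x, w = 1 + x := ⟨w - 1, by ring⟩
  have hxs : N x ≤ s := by
    have e : x = w - 1 := by rw [ew]; ring
    rw [e]
    exact hws
  have hss : s ^ 2 ≤ s := by nlinarith
  obtain ⟨-, h2⟩ := h.nm_close hs0 hs.le hxs
  rw [← ew, hw, sub_self, zero_sub, h.neg] at h2
  obtain ⟨y₁, hy1, hy2⟩ := h.h0 _ (tr_act hσ x)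
  have hy3 : N y₁ ≤ s ^ 2 := hy2.trans h2
  obtain ⟨y, hy4, hy5⟩ := h.h1 (x - y₁) (by
    simp only [map_sub, Finset.sum_sub_distrib]
    rw [hy1, sub_self])
  have hys : N y ≤ s := hy5.trans ((h.sub _ _).trans (max_le hxs (hy3.trans hss)))
  have hσy : N (σ (1 + y) - 1) ≤ s := by
    rw [map_add, map_one, add_sub_cancel_left, h.inv]
    exact hys
  have hn0 : σ (1 + y) ≠ 0 := hne _ (hσy.trans_lt hs)
  refine ⟨y, hys, ?_⟩
  have e : w * (1 + y) * (σ (1 + y))⁻¹ - 1 = (y₁ + x * y) * (σ (1 + y))⁻¹ := by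
    have e1 : σ (1 + y) = 1 + y + (x - y₁) := by
      rw [map_add, map_one, ← hy4]
      ring
    field_simp
    rw [e1, ew]
    ring
  rw [e]
  refine (h.absorb ((h.inv_close hn0 hs hσy).trans hs.le) _).trans ?_
  refine (h.add _ _).trans (max_le hy3 ((h.mul _ _).trans ?_))
  rw [pow_two]
  exact mul_le_mul hxs hys (h.nonneg _) hs0

/-- The minimum of a continuous function on a compact set. -/
theorem exists_zero {K : Set H} (hK : IsCompact K) (hne : K.Nonempty) (g : H → H)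
    (hg : Continuous g) (hε : ∀ ε : ℝ, 0 < ε → ∃ z ∈ K, ‖g z‖ < ε) : ∃ z ∈ K, g z = 0 := by
  obtain ⟨z, hz, hmin⟩ := hK.exists_isMinOn hne (continuous_norm.comp hg).continuousOn
  refine ⟨z, hz, ?_⟩
  by_contra hcon
  obtain ⟨z', hz', hlt⟩ := hε ‖g z‖ (norm_pos_iff.2 hcon)
  have h1 := (isMinOn_iff.1 hmin) z' hz'
  exact absurd hlt (not_lt.2 h1)

theorem l_lat : Pool.Agent.Helper42.PW.L_LAT := by
  intro p hp H _ _ _ _ σ hσ
  obtain ⟨N, B, B', h⟩ := exists_nrm σ hσ
  obtain ⟨r₀, hr₀, hr1, hBr⟩ : ∃ r₀ : ℝ, 0 < r₀ ∧ r₀ < 1 ∧ B * r₀ < 1 := by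
    refine ⟨1 / (2 * (B + 1)), by have := h.B0; positivity, ?_, ?_⟩
    · have := h.B0
      rw [div_lt_one (by positivity)]
      linarith
    · have := h.B0
      rw [mul_one_div, div_lt_one (by positivity)]
      linarith
  -- elements close to 1 have norm 1
  have hnrm : ∀ u : H, N (u - 1) ≤ r₀ → ‖u‖ = 1 := by
    intro u hu
    have h1 : ‖u - 1‖ < 1 :=
      ((h.hB _).trans (mul_le_mul_of_nonneg_left hu h.B0)).trans_lt hBr
    have h2 := IsUltrametricDist.norm_eq_of_add_norm_lt_max (x := u) (y := -1) (by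
      rw [← sub_eq_add_neg, norm_neg, norm_one]
      exact lt_of_lt_of_le h1 (le_max_right _ _))
    rw [norm_neg, norm_one] at h2
    exact h2
  have hne : ∀ u : H, N (u - 1) < 1 → u ≠ 0 := by
    rintro u hu rfl
    rw [zero_sub, h.neg] at hu
    have h1 := h.mul 1 1
    rw [mul_one] at h1
    have h2 : N 1 ≠ 0 := by
      intro h0
      have := h.hB 1
      rw [norm_one, h0, mul_zero] at this
      linarith
    have h3 : 0 < N 1 := lt_of_le_of_ne (h.nonneg 1) (Ne.symm h2)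
    nlinarith
  let V : Subgroup Hˣ :=
    { carrier := {u | N ((u : H) - 1) ≤ r₀}
      mul_mem' := fun {a b} ha hb => h.mul_close hr1.le ha hb
      one_mem' := by
        show N (((1 : Hˣ) : H) - 1) ≤ r₀
        rw [Units.val_one, sub_self, h.zero]
        exact hr₀.le
      inv_mem' := fun {a} ha => by
        show N (((a⁻¹ : Hˣ) : H) - 1) ≤ r₀
        rw [Units.val_inv_eq_inv_val]
        exact h.inv_close a.ne_zero hr1 ha }
  have hV : ∀ u : Hˣ, u ∈ V ↔ N ((u : H) - 1) ≤ r₀ := fun _ => Iff.rfl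
  -- continuity of the automorphisms
  have hcσ : Continuous σ := σ.toLinearMap.continuous_of_finiteDimensional
  have hcσi : ∀ i : ℕ, Continuous (σ ^ i : H ≃ₐ[ℚ_[p]] H) := fun i =>
    (σ ^ i : H ≃ₐ[ℚ_[p]] H).toLinearMap.continuous_of_finiteDimensional
  have hcn : Continuous (nm σ) := continuous_finsetProd _ fun i _ => hcσi i
  -- compactness
  have hprop : ProperSpace H := FiniteDimensional.proper ℚ_[p] H
  let K : Set H := {z | N (z - 1) ≤ r₀}
  have hK : IsCompact K := by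
    apply Metric.isCompact_of_isClosed_isBounded
    · exact isClosed_le (h.cont.comp (continuous_id.sub continuous_const)) continuous_const
    · refine (Metric.isBounded_closedBall (x := (1 : H)) (r := B * r₀)).subset fun z hz => ?_
      rw [Metric.mem_closedBall, dist_eq_norm]
      exact (h.hB _).trans (mul_le_mul_of_nonneg_left hz h.B0)
  have hKne : K.Nonempty := ⟨1, by
    show N (1 - 1) ≤ r₀
    rw [sub_self, h.zero]
    exact hr₀.le⟩
  -- units from elements
  have hun : ∀ z : H, N (z - 1) ≤ r₀ → ∃ u : Hˣ, (u : H) = z ∧ u ∈ V := fun z hz =>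
    ⟨Units.mk0 z (hne z (hz.trans_lt hr1)), rfl, hz⟩
  have hpow : ∀ n : ℕ, r₀ ^ (n + 1) ≤ r₀ := fun n => by
    rw [pow_succ]
    exact mul_le_of_le_one_left hr₀.le (pow_le_one₀ hr₀.le hr1.le)
  have hpow1 : ∀ n : ℕ, r₀ ^ (n + 1) < 1 := fun n => (hpow n).trans_lt hr1
  have hpow2 : ∀ n : ℕ, (r₀ ^ (n + 1)) ^ 2 ≤ r₀ ^ (n + 2) := fun n => by
    rw [← pow_mul]
    exact pow_le_pow_of_le_one hr₀.le hr1.le (by omega)
  have htend : ∀ ε : ℝ, 0 < ε → ∃ n : ℕ, B * r₀ ^ (n + 1) < ε := by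
    intro ε hε
    obtain ⟨n, hn⟩ := exists_pow_lt_of_lt_one (show 0 < ε / (B + 1) by
      have := h.B0; positivity) hr1
    refine ⟨n, ?_⟩
    have h1 : r₀ ^ (n + 1) ≤ r₀ ^ n := pow_le_pow_of_le_one hr₀.le hr1.le (Nat.le_succ n)
    have h2 : B * r₀ ^ (n + 1) ≤ B * r₀ ^ n := mul_le_mul_of_nonneg_left h1 h.B0
    have h3 : 0 < r₀ ^ n := pow_pos hr₀ n
    rw [lt_div_iff₀ (by have := h.B0; positivity)] at hn
    nlinarith
  refine ⟨V, r₀ / (B' + 1), by have := h.B0'; positivity, ?_, ?_, ?_, ?_, ?_⟩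
  · intro u hu
    show N (σ (u : H) - 1) ≤ r₀
    have e : σ (u : H) - 1 = σ ((u : H) - 1) := by rw [map_sub, map_one]
    rw [e, h.inv]
    exact hu
  · intro u hu
    show N ((u : H) - 1) ≤ r₀
    refine (h.hB' _).trans ?_
    have hb := h.B0'
    rw [le_div_iff₀ (by positivity)] at hu
    nlinarith [norm_nonneg ((u : H) - 1)]
  · exact fun u hu => hnrm _ hu
  · -- H⁰
    intro v hv hσv
    have hclaim : ∀ n : ℕ, ∃ z : H, N (z - 1) ≤ r₀ ∧
        N ((v : H) * (nm σ z)⁻¹ - 1) ≤ r₀ ^ (n + 1) := by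
      intro n
      induction n with
      | zero =>
        refine ⟨1, ?_, ?_⟩
        · rw [sub_self, h.zero]
          exact hr₀.le
        · rw [nm_one, inv_one, mul_one, zero_add, pow_one]
          exact hv
      | succ n ih =>
        obtain ⟨z, hz1, hz2⟩ := ih
        have hfix : σ ((v : H) * (nm σ z)⁻¹) = (v : H) * (nm σ z)⁻¹ := by
          rw [map_mul, map_inv₀, nm_act hσ, hσv]
        obtain ⟨y, hy1, hy2⟩ := step0 h hfix (pow_pos hr₀ _).le (hpow1 n) hz2 hne
        refine ⟨z * (1 + y), ?_, ?_⟩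
        · refine h.mul_close hr1.le hz1 ?_
          rw [add_sub_cancel_left]
          exact hy1.trans (hpow n)
        · rw [nm_mul, mul_inv, ← mul_assoc]
          exact hy2.trans (hpow2 n)
    obtain ⟨z, hz, hz0⟩ := exists_zero hK hKne (fun z => nm σ z - v)
      (hcn.sub continuous_const) (fun ε hε => by
        obtain ⟨n, hn⟩ := htend ε hε
        obtain ⟨z, hz1, hz2⟩ := hclaim n
        refine ⟨z, hz1, lt_of_le_of_lt ?_ hn⟩
        have hnz : N (nm σ z - 1) ≤ r₀ := by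
          have e : z = 1 + (z - 1) := by ring
          rw [e]
          exact (h.nm_close hr₀.le hr1.le hz1).1
        have hnz0 : nm σ z ≠ 0 := hne _ (hnz.trans_lt hr1)
        have e : nm σ z - v = - (((v : H) * (nm σ z)⁻¹ - 1) * nm σ z) := by
          field_simp
          ring
        show ‖nm σ z - v‖ ≤ _
        rw [e, norm_neg, norm_mul, hnrm _ hnz, mul_one]
        exact (h.hB _).trans (mul_le_mul_of_nonneg_left hz2 h.B0))
    obtain ⟨u, rfl, hu⟩ := hun z hz
    exact ⟨u, hu, sub_eq_zero.1 hz0⟩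
  · -- H¹
    intro v hv hNv
    have hclaim : ∀ n : ℕ, ∃ z : H, N (z - 1) ≤ r₀ ∧
        N ((v : H) * z * (σ z)⁻¹ - 1) ≤ r₀ ^ (n + 1) ∧ nm σ ((v : H) * z * (σ z)⁻¹) = 1 := by
      intro n
      induction n with
      | zero =>
        refine ⟨1, ?_, ?_, ?_⟩
        · rw [sub_self, h.zero]
          exact hr₀.le
        · rw [map_one, inv_one, mul_one, mul_one, zero_add, pow_one]
          exact hv
        · rw [map_one, inv_one, mul_one, mul_one]
          exact hNv
      | succ n ih =>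
        obtain ⟨z, hz1, hz2, hz3⟩ := ih
        obtain ⟨y, hy1, hy2⟩ := step1 h hσ hz3 (pow_pos hr₀ _).le (hpow1 n) hz2 hne
        have e : (v : H) * (z * (1 + y)) * (σ (z * (1 + y)))⁻¹ =
            (v : H) * z * (σ z)⁻¹ * (1 + y) * (σ (1 + y))⁻¹ := by
          rw [map_mul, mul_inv]
          ring
        have hy3 : N ((1 + y) - 1) ≤ r₀ := by
          rw [add_sub_cancel_left]
          exact hy1.trans (hpow n)
        refine ⟨z * (1 + y), h.mul_close hr1.le hz1 hy3, ?_, ?_⟩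
        · rw [e]
          exact hy2.trans (hpow2 n)
        · have hy0 : (1 + y) ≠ 0 := hne _ (hy3.trans_lt hr1)
          have h5 : nm σ (σ (1 + y)) = nm σ (1 + y) := by
            rw [← nm_act hσ (1 + y)]
            unfold nm
            rw [map_prod]
            refine Finset.prod_congr rfl fun i _ => ?_
            show (σ ^ i * σ) (1 + y) = (σ * σ ^ i) (1 + y)
            rw [← pow_succ, ← pow_succ']
          have h6 : nm σ (1 + y) * nm σ ((1 + y)⁻¹) = 1 := by
            rw [← nm_mul, mul_inv_cancel₀ hy0, nm_one]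
          have h7 : nm σ (σ (1 + y)) * nm σ ((σ (1 + y))⁻¹) = 1 := by
            rw [← nm_mul, mul_inv_cancel₀ ((map_ne_zero σ).2 hy0), nm_one]
          rw [e, nm_mul, nm_mul, hz3, one_mul, ← h5]
          exact h7
    obtain ⟨z, hz, hz0⟩ := exists_zero hK hKne (fun z => σ z - v * z)
      (hcσ.sub (continuous_const.mul continuous_id)) (fun ε hε => by
        obtain ⟨n, hn⟩ := htend ε hε
        obtain ⟨z, hz1, hz2, -⟩ := hclaim n
        refine ⟨z, hz1, lt_of_le_of_lt ?_ hn⟩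
        have hσz : N (σ z - 1) ≤ r₀ := by
          have e : σ z - 1 = σ (z - 1) := by rw [map_sub, map_one]
          rw [e, h.inv]
          exact hz1
        have hσz0 : σ z ≠ 0 := hne _ (hσz.trans_lt hr1)
        have e : σ z - v * z = - (((v : H) * z * (σ z)⁻¹ - 1) * σ z) := by
          field_simp
          ring
        show ‖σ z - v * z‖ ≤ _
        rw [e, norm_neg, norm_mul, hnrm _ hσz, mul_one]
        exact (h.hB _).trans (mul_le_mul_of_nonneg_left hz2 h.B0))
    obtain ⟨u, rfl, hu⟩ := hun z hz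
    exact ⟨u, hu, sub_eq_zero.1 hz0⟩

end

end Pool.Agent.Helper6.PW
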