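import Pool.Agent.Helper42.PW.Goals2

/-!
# Project PW (MP_fc6b1e_nt), packet L_LC0: local condition above `p`
-/

set_option autoImplicit false

namespace Pool.Agent.Helper6.PW.LC

open NumberField Module IsDedekindDomain Finset
open Pool.Agent.Helper42.PW

section norms

variable {k : Type} [NormedField k] [IsUltrametricDist k]

theorem norm_one_of_sub {u : k} (h : ‖u - 1‖ < 1) : ‖u‖ = 1 := by
  have h2 := IsUltrametricDist.norm_eq_of_add_norm_lt_max (x := u) (y := -1) (by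
    rw [← sub_eq_add_neg, norm_neg, norm_one]
    exact lt_of_lt_of_le h (le_max_right _ _))
  rw [norm_neg, norm_one] at h2
  exact h2

theorem norm_pow_sub_one {u : k} {s : ℝ} (hs : s < 1) (h : ‖u - 1‖ ≤ s) (n : ℕ) :
    ‖u ^ n - 1‖ ≤ s := by
  have hs0 : 0 ≤ s := (norm_nonneg _).trans h
  induction n with
  | zero =>
    rw [pow_zero, sub_self, norm_zero]
    exact hs0
  | succ n ih =>
    have e : u ^ (n + 1) - 1 = (u ^ n - 1) * u + (u - 1) := by ring
    rw [e]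
    refine (IsUltrametricDist.norm_add_le_max _ _).trans (max_le ?_ h)
    rw [norm_mul, norm_one_of_sub (h.trans_lt hs), mul_one]
    exact ih

end norms

/-- Elements algebraic over `ℚ` have `p`-th roots in a field which contains an algebraic closure of `ℚ`. -/
theorem exists_root {k : Type} [Field k] [CharZero k] (ι : AlgebraicClosure ℚ →+* k) {F : Type}
    [Field F] [NumberField F] (τ : F →+* k) (α : F) (p : ℕ) (hp : 0 < p) :
    ∃ β : k, β ^ p = τ α := by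
  let _ := ι.toAlgebra
  have hint : IsIntegral (AlgebraicClosure ℚ) (τ α) := by
    have h1 : IsIntegral ℚ α := Algebra.IsIntegral.isIntegral α
    obtain ⟨Q, hQ1, hQ2⟩ := h1
    refine ⟨Q.map (algebraMap ℚ (AlgebraicClosure ℚ)), hQ1.map _, ?_⟩
    rw [Polynomial.eval₂_map]
    have e : (algebraMap (AlgebraicClosure ℚ) k).comp (algebraMap ℚ (AlgebraicClosure ℚ)) =
        τ.comp (algebraMap ℚ F) := RingHom.ext_rat _ _
    rw [e, ← Polynomial.hom_eval₂, hQ2, map_zero]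
  have hdeg := IsAlgClosed.degree_eq_one_of_irreducible (AlgebraicClosure ℚ)
    (minpoly.irreducible hint)
  obtain ⟨r, hr⟩ := minpoly.mem_range_of_degree_eq_one (AlgebraicClosure ℚ) (τ α) hdeg
  obtain ⟨s, hs⟩ := IsAlgClosed.exists_pow_nat_eq r hp
  refine ⟨algebraMap (AlgebraicClosure ℚ) k s, ?_⟩
  rw [← map_pow, hs, hr]

section dec

variable {M F : Type} [Field M] [Field F] [NumberField F] [Algebra M F]

/-- The decomposition group. -/
def Dec (M : Type) {F : Type} [Field M] [Field F] [NumberField F] [Algebra M F]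
    (W : HeightOneSpectrum (𝓞 F)) : Subgroup (F ≃ₐ[M] F) where
  carrier := {g | ∀ y : F, W.valuation F (g y) = W.valuation F y}
  mul_mem' := fun {a b} ha hb y => by
    show W.valuation F (a (b y)) = _
    rw [ha, hb]
  one_mem' := fun y => rfl
  inv_mem' := fun {a} ha y => by
    have h1 := ha (a⁻¹ y)
    have h2 : a (a⁻¹ y) = y := by
      show (a * a⁻¹) y = y
      rw [mul_inv_cancel]
      rfl
    rw [h2] at h1
    exact h1.symm

/-- The decomposition group is cyclic of order prime to `p`. -/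
theorem dec_cyclic {p : ℕ} [hp : Fact p.Prime] (W : HeightOneSpectrum (𝓞 F)) {ε : F}
    (hε : IsPrimitiveRoot ε p)
    (h : ∀ g : F ≃ₐ[M] F, (∀ y : F, W.valuation F (g y) = W.valuation F y) → g ε = ε → g = 1) :
    ∃ g₀ : F ≃ₐ[M] F, g₀ ∈ Dec M W ∧ (∀ g ∈ Dec M W, ∃ j : ℕ, g = g₀ ^ j) ∧
      ∃ d : ℕ, 0 < d ∧ d.Coprime p ∧ g₀ ^ d = 1 := by
  have : NeZero p := ⟨hp.out.ne_zero⟩
  let f : Dec M W →* (ZMod p)ˣ := (hε.autToPow M).comp (Dec M W).subtype
  have hf : Function.Injective f := by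
    rw [injective_iff_map_eq_one]
    intro g hg
    have h1 := hε.autToPow_spec M (g : F ≃ₐ[M] F)
    have h2 : hε.autToPow M (g : F ≃ₐ[M] F) = 1 := hg
    rw [h2, Units.val_one, ZMod.val_one, pow_one] at h1
    exact Subtype.ext (h _ g.2 h1.symm)
  have hcyc : IsCyclic (Dec M W) := isCyclic_of_injective f hf
  have hfin : Finite (Dec M W) := Finite.of_injective f hf
  obtain ⟨g₀, hg₀⟩ := hcyc.exists_generator
  refine ⟨g₀, g₀.2, ?_, Nat.card (Dec M W), Nat.card_pos, ?_, ?_⟩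
  · intro g hg
    obtain ⟨j, hj⟩ := (mem_powers_iff_mem_zpowers.2 (hg₀ ⟨g, hg⟩))
    exact ⟨j, (congrArg Subtype.val hj).symm⟩
  · have h1 : Nat.card (Dec M W) ∣ p - 1 := by
      have h2 := Subgroup.card_dvd_of_injective f hf
      rwa [Nat.card_eq_fintype_card (α := (ZMod p)ˣ), ZMod.card_units] at h2
    have h3 : (p - 1).Coprime p := by
      have := hp.out.one_lt
      exact (Nat.coprime_self_sub_left this.le).2 (Nat.coprime_one_left p)
    exact Nat.Coprime.coprime_dvd_left h1 h3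
  · have := pow_card_eq_one' (x := g₀)
    exact congrArg Subtype.val this

end dec

/-- The values of the norm form, with `p`-th powers and inverses. -/
theorem nf_closed (h7 : N_ALG) {p : ℕ} [hp : Fact p.Prime] {R : Type} [Field R] [CharZero R] {α : R}
    (hα : α ≠ 0) :
    (∀ a b : R, (∃ z, nf p α z = a) → (∃ z, nf p α z = b) → ∃ z, nf p α z = a * b) ∧
      (∀ c : R, ∃ z, nf p α z = c ^ p) ∧
      ∀ a : R, a ≠ 0 → (∃ z, nf p α z = a) → ∃ z, nf p α z = a⁻¹ := by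
  obtain ⟨-, n2, -, n4, -⟩ := h7
  have hmul : ∀ a b : R, (∃ z, nf p α z = a) → (∃ z, nf p α z = b) → ∃ z, nf p α z = a * b := by
    rintro _ _ ⟨z, rfl⟩ ⟨z', rfl⟩
    obtain ⟨z'', h⟩ := n4 p R α hα z z'
    exact ⟨z'', h.symm⟩
  have hpow : ∀ c : R, ∃ z, nf p α z = c ^ p := fun c => ⟨_, n2 p R α c⟩
  refine ⟨hmul, hpow, fun a ha hz => ?_⟩
  have hn : ∀ n : ℕ, ∃ z, nf p α z = a ^ n := by
    intro n
    induction n with
    | zero =>
      obtain ⟨z, hz⟩ := hpow 1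
      exact ⟨z, by rw [hz, one_pow, pow_zero]⟩
    | succ n ih =>
      rw [pow_succ]
      exact hmul _ _ ih hz
  have h1 := hmul _ _ (hn (p - 1)) (hpow a⁻¹)
  have h2 : a ^ (p - 1) * a⁻¹ ^ p = a⁻¹ := by
    obtain ⟨q, hq⟩ : ∃ q, p = q + 1 := ⟨p - 1, (Nat.succ_pred_eq_of_pos hp.out.pos).symm⟩
    rw [hq, Nat.add_sub_cancel, pow_succ, ← mul_assoc, ← mul_pow, mul_inv_cancel₀ ha, one_pow,
      one_mul]
  rwa [h2] at h1

theorem l_lc0 (h1 : L_PRM) (h2 : L_CLO) (h3 : L_DEN) (h4 : L_RT) (h5 : L_ISO) (h6 : L_LOC)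
    (h7 : N_ALG) : L_LC0 := by
  classical
  intro p hp k _ _ _ hι M F _ _ _ _ _ _ ε α hε hα W hWp hD hfree hnp
  obtain ⟨τ, hτ⟩ := h1 p k hι F W hWp
  obtain ⟨ι⟩ := hι
  have hp1 : (1 : ℝ) < p := by exact_mod_cast hp.out.one_lt
  have hp3 : (1 / p : ℝ) ^ 3 < 1 := by
    refine pow_lt_one₀ (by positivity) ?_ (by norm_num)
    rw [div_lt_one (by linarith)]
    exact hp1
  have hp3' : (0 : ℝ) < (1 / p : ℝ) ^ 3 := by positivity
  have hτp : ‖τ ((p : F) ^ 3)‖ = (1 / p : ℝ) ^ 3 := by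
    have e : τ ((p : F) ^ 3) = algebraMap ℚ_[p] k ((p : ℚ_[p]) ^ 3) := by
      rw [map_pow, map_natCast, map_pow, map_natCast]
    rw [e, norm_algebraMap', norm_pow, Padic.norm_p, one_div]
  -- translation
  have hcl : ∀ u : F, Cl p W u ↔ ‖τ u - 1‖ ≤ (1 / p : ℝ) ^ 3 := by
    intro u
    have e1 : W.valuation F (u - 1) ≤ W.valuation F (p : F) ^ 3 ↔
        ‖τ u - 1‖ ≤ (1 / p : ℝ) ^ 3 := by
      rw [← map_pow, hτ, hτp, map_sub, map_one]
    constructor
    · intro h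
      exact e1.1 h.2
    · intro h
      refine ⟨(e1.2 h).trans_lt ?_, e1.2 h⟩
      exact pow_lt_one₀ zero_le hWp (by norm_num)
  have hdec : ∀ g : F ≃ₐ[M] F, (∀ y, ‖τ (g y)‖ = ‖τ y‖) ↔ g ∈ Dec M W := by
    intro g
    constructor
    · intro h y
      exact le_antisymm ((hτ _ _).2 (h y).le) ((hτ _ _).2 (h y).ge)
    · intro h y
      exact le_antisymm ((hτ _ _).1 (h y).le) ((hτ _ _).1 (h y).ge)
  obtain ⟨𝓕, hfd, h, hdense, hext⟩ := h2 p k F τ
  let t : F →+* 𝓕 := τ.codRestrict 𝓕 h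
  have ht : ∀ x, ((t x : 𝓕) : k) = τ x := fun _ => rfl
  have htn : ∀ x, ‖t x‖ = ‖τ x‖ := fun _ => rfl
  -- the generator
  obtain ⟨g₀, hg₀, hgen, d, hd0, hdp, hgd⟩ := dec_cyclic (M := M) W hε hfree
  obtain ⟨n, c, hgε, hgα⟩ := hD g₀ hg₀
  obtain ⟨G, hG⟩ := hext (g₀ : F ≃+* F) fun x => (hdec g₀).2 hg₀ x
  have hG' : ∀ x, G (t x) = t (g₀ x) := fun x => Subtype.ext (hG x)
  have hGj : ∀ (j : ℕ) (x : F), (G ^ j) (t x) = t ((g₀ ^ j) x) := by
    intro j
    induction j with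
    | zero => intro x; rfl
    | succ j ih =>
      intro x
      rw [pow_succ, pow_succ]
      show (G ^ j) (G (t x)) = t ((g₀ ^ j) (g₀ x))
      rw [hG', ih]
  have hGd : G ^ d = 1 := by
    ext y
    have hy : ∀ e : ℝ, 0 < e → ‖(G ^ d) y - y‖ ≤ e := by
      intro e he
      obtain ⟨x, hx⟩ := hdense y y.2 e he
      have hx' : ‖y - t x‖ < e := hx
      have e1 : (G ^ d) y - y = (G ^ d) (y - t x) + (t x - y) := by
        rw [map_sub, hGj, hgd]
        show _ = (G ^ d) y - t x + (t x - y)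
        ring
      rw [e1]
      refine (IsUltrametricDist.norm_add_le_max _ _).trans (max_le ?_ ?_)
      · rw [h5 p 𝓕 (G ^ d)]
        exact hx'.le
      · rw [norm_sub_rev]
        exact hx'.le
    have h8 : ‖(G ^ d) y - y‖ ≤ 0 := le_of_forall_pos_le_add fun e he => by
      rw [zero_add]
      exact hy e he
    have h9 : (G ^ d) y - y = 0 := norm_le_zero_iff.1 h8
    exact congrArg (fun z : 𝓕 => (z : k)) (sub_eq_zero.1 h9)
  -- `α` is not a `p`-th power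
  have hαt : t α ≠ 0 := (map_ne_zero t).2 hα
  have hnb : ¬ ∃ b : 𝓕, b ^ p = t α := by
    rintro ⟨b, hb⟩
    have hb0 : b ≠ 0 := by
      rintro rfl
      rw [zero_pow hp.out.ne_zero] at hb
      exact hαt hb.symm
    have hbn : 0 < ‖b‖ := norm_pos_iff.2 hb0
    obtain ⟨y, hy⟩ := hdense (b⁻¹ : 𝓕) (b⁻¹ : 𝓕).2 ((1 / p : ℝ) ^ 3 / ‖b‖) (by positivity)
    have hy' : ‖b⁻¹ - t y‖ < (1 / p : ℝ) ^ 3 / ‖b‖ := hy
    apply hnp
    refine ⟨y, (hcl _).2 ?_⟩
    have e1 : ‖b * t y - 1‖ ≤ (1 / p : ℝ) ^ 3 := by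
      have e2 : b * t y - 1 = - (b * (b⁻¹ - t y)) := by
        rw [mul_sub, mul_inv_cancel₀ hb0]
        ring
      rw [e2, norm_neg, norm_mul, mul_comm]
      rw [lt_div_iff₀ hbn] at hy'
      exact hy'.le
    have e3 := norm_pow_sub_one hp3 e1 p
    have e4 : (b * t y) ^ p = t (α * y ^ p) := by
      rw [mul_pow, hb, map_mul, map_pow]
    rw [e4] at e3
    exact e3
  have hck : CharZero k := charZero_of_injective_algebraMap (algebraMap ℚ_[p] k).injective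
  obtain ⟨β, hβ⟩ := exists_root ι τ α p hp.out.pos
  -- the element `u`
  obtain ⟨u, hu0, hGu, hu⟩ := h6 p k 𝓕 (t ε) (t α) β
    (hε.map_of_injective t.injective) hαt hβ hnb G n d (t c)
    (by rw [hG', hgε, map_pow]) (by rw [hG', hgα, map_mul, map_pow, map_pow]) hd0 hdp hGd
  have hun : 0 < ‖u‖ := norm_pos_iff.2 hu0
  have hGju : ∀ j : ℕ, (G ^ j) u = u := by
    intro j
    induction j with
    | zero => rfl
    | succ j ih =>
      rw [pow_succ]
      show (G ^ j) (G u) = u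
      rw [hGu, ih]
  obtain ⟨C, hC, hCx⟩ := h3 p k M F τ
  obtain ⟨y, hy⟩ := hdense u u.2 ((1 / p : ℝ) ^ 3 * ‖u‖ / (C + 1)) (by positivity)
  have hy' : ‖u - t y‖ < (1 / p : ℝ) ^ 3 * ‖u‖ / (C + 1) := hy
  obtain ⟨x, hx⟩ := hCx y ((1 / p : ℝ) ^ 3 * ‖u‖ / (C + 1)) (by positivity) (by
    intro g hg
    obtain ⟨j, rfl⟩ := hgen g ((hdec g).1 hg)
    have e1 : t ((g₀ ^ j) y) - t y = (G ^ j) (t y - u) + (u - t y) := by
      rw [map_sub, hGj, hGju]
      ring
    have e2 : ‖t ((g₀ ^ j) y) - t y‖ ≤ (1 / p : ℝ) ^ 3 * ‖u‖ / (C + 1) := by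
      rw [e1]
      refine (IsUltrametricDist.norm_add_le_max _ _).trans (max_le ?_ hy'.le)
      rw [h5 p 𝓕 (G ^ j), norm_sub_rev]
      exact hy'.le
    exact e2)
  have hx' : ‖t (algebraMap M F x) - t y‖ ≤ C * ((1 / p : ℝ) ^ 3 * ‖u‖ / (C + 1)) := hx
  have hxu : ‖t (algebraMap M F x) - u‖ ≤ (1 / p : ℝ) ^ 3 * ‖u‖ := by
    have e1 : t (algebraMap M F x) - u = (t (algebraMap M F x) - t y) + (t y - u) := by ring
    rw [e1]
    have hq : 0 < (1 / p : ℝ) ^ 3 * ‖u‖ / (C + 1) := by positivity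
    have hsum : (C + 1) * ((1 / p : ℝ) ^ 3 * ‖u‖ / (C + 1)) = (1 / p : ℝ) ^ 3 * ‖u‖ := by
      field_simp
    refine (IsUltrametricDist.norm_add_le_max _ _).trans (max_le (hx'.trans ?_) ?_)
    · nlinarith
    · rw [norm_sub_rev]
      refine hy'.le.trans ?_
      nlinarith
  have hxu' : ‖t (algebraMap M F x) * u⁻¹ - 1‖ ≤ (1 / p : ℝ) ^ 3 := by
    have e1 : t (algebraMap M F x) * u⁻¹ - 1 = (t (algebraMap M F x) - u) * u⁻¹ := by
      rw [sub_mul, mul_inv_cancel₀ hu0]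
    rw [e1, norm_mul, norm_inv, ← div_eq_mul_inv, div_le_iff₀ hun]
    exact hxu
  have hx0 : x ≠ 0 := by
    rintro rfl
    rw [map_zero, map_zero, zero_mul, zero_sub, norm_neg, norm_one] at hxu'
    linarith
  refine ⟨Units.mk0 x hx0, ?_⟩
  rw [Units.val_mk0]
  rintro ⟨z, hz⟩
  obtain ⟨v, hv, -⟩ := (h4 p 𝓕).1 _ hxu'
  have hz' : ‖t (algebraMap M F x) * nf p (t α) (fun j => t (z j)) - 1‖ ≤ (1 / p : ℝ) ^ 3 := by
    have e1 := (hcl _).1 hz
    have e2 : t (algebraMap M F x * nf p α z) =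
        t (algebraMap M F x) * nf p (t α) (fun j => t (z j)) := by
      rw [map_mul, h7.1 p F 𝓕 t α z]
    rw [← e2]
    exact e1
  obtain ⟨w, hw, -⟩ := (h4 p 𝓕).1 _ hz'
  set Nn := nf p (t α) (fun j => t (z j)) with hNn
  have hNn0 : Nn ≠ 0 := by
    intro h0
    rw [h0, mul_zero, zero_sub, norm_neg, norm_one] at hz'
    linarith
  obtain ⟨c1, c2, c3⟩ := nf_closed h7 (p := p) hαt
  have htx0 : t (algebraMap M F x) ≠ 0 := by
    rw [map_ne_zero, map_ne_zero]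
    exact hx0
  have hv0 : v ≠ 0 := by
    rintro rfl
    rw [zero_pow hp.out.ne_zero] at hv
    exact mul_ne_zero htx0 (inv_ne_zero hu0) hv.symm
  have hfin : u = (w / v) ^ p * Nn⁻¹ := by
    rw [div_pow, hw, hv]
    field_simp
  obtain ⟨z', hz'⟩ := c1 _ _ (c2 (w / v)) (c3 Nn hNn0 ⟨_, rfl⟩)
  exact hu z' (by rw [hz', ← hfin])

end Pool.Agent.Helper6.PW.LC
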