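import Mathlib

/-!
# Project PW (MP_fc6b1e_nt), packet L_LAT, part 1: an invariant norm for which `H` is cohomologically trivial
-/

set_option autoImplicit false

namespace Pool.Agent.Helper6.PW

open Module Finset
open scoped Fin.CommRing Fin.NatCast

/-- A submultiplicative ultrametric norm, invariant under `σ`, for which the trace maps onto the fixed elements
and `σ - 1` onto the elements of trace `0`, without loss. -/
structure Nrm (p : ℕ) [Fact p.Prime] {H : Type} [NormedField H] [NormedAlgebra ℚ_[p] H]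
    (σ : H ≃ₐ[ℚ_[p]] H) (N : H → ℝ) (B B' : ℝ) : Prop where
  nonneg : ∀ x, 0 ≤ N x
  zero : N 0 = 0
  neg : ∀ x, N (-x) = N x
  add : ∀ x y, N (x + y) ≤ max (N x) (N y)
  mul : ∀ x y, N (x * y) ≤ N x * N y
  inv : ∀ x, N (σ x) = N x
  cont : Continuous N
  B0 : 0 ≤ B
  B0' : 0 ≤ B'
  hB : ∀ x, ‖x‖ ≤ B * N x
  hB' : ∀ x, N x ≤ B' * ‖x‖
  h0 : ∀ x, σ x = x → ∃ y, ∑ i ∈ range p, (σ ^ i) y = x ∧ N y ≤ N x
  h1 : ∀ x, ∑ i ∈ range p, (σ ^ i) x = 0 → ∃ y, σ y - y = x ∧ N y ≤ N x

section

variable {p : ℕ} [hp : Fact p.Prime] {H : Type} [NormedField H] [NormedAlgebra ℚ_[p] H]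
    [IsUltrametricDist H] [FiniteDimensional ℚ_[p] H]

/-- The fixed field. -/
noncomputable abbrev FF (σ : H ≃ₐ[ℚ_[p]] H) : IntermediateField ℚ_[p] H :=
  IntermediateField.fixedField (Subgroup.zpowers σ)

omit [IsUltrametricDist H] [FiniteDimensional ℚ_[p] H] in
theorem mem_FF (σ : H ≃ₐ[ℚ_[p]] H) (x : H) : x ∈ FF σ ↔ σ x = x := by
  rw [IntermediateField.mem_fixedField_iff]
  constructor
  · intro h
    exact h σ (Subgroup.mem_zpowers σ)
  · intro h f hf
    obtain ⟨n, rfl⟩ := Subgroup.mem_zpowers_iff.1 hf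
    have h1 : σ ∈ MulAction.stabilizer (H ≃ₐ[ℚ_[p]] H) x := h
    exact Subgroup.zpow_mem _ h1 n

/-- `σ` over the fixed field. -/
noncomputable def sF (σ : H ≃ₐ[ℚ_[p]] H) : H ≃ₐ[FF σ] H :=
  AlgEquiv.ofRingEquiv (f := (σ : H ≃+* H)) fun x => (mem_FF σ x).1 x.2

omit [IsUltrametricDist H] [FiniteDimensional ℚ_[p] H] in
theorem sF_apply (σ : H ≃ₐ[ℚ_[p]] H) (x : H) : sF σ x = σ x := rfl

omit [IsUltrametricDist H] [FiniteDimensional ℚ_[p] H] in
theorem sF_pow (σ : H ≃ₐ[ℚ_[p]] H) (n : ℕ) (x : H) : (sF σ ^ n) x = (σ ^ n) x := by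
  induction n generalizing x with
  | zero => rfl
  | succ n ih =>
    rw [pow_succ, pow_succ]
    show (sF σ ^ n) (sF σ x) = (σ ^ n) (σ x)
    rw [ih]
    rfl

omit [IsUltrametricDist H] in
/-- A basis of conjugates. -/
theorem exists_basis (σ : H ≃ₐ[ℚ_[p]] H) (hσ : orderOf σ = p) :
    ∃ (b : H) (e : Basis (Fin p) (FF σ) H), ∀ i, e i = (σ ^ (i : ℕ)) b := by
  obtain ⟨b, hb⟩ := exists_linearIndependent_algEquiv_apply (FF σ) H
  have hinj : Function.Injective fun i : Fin p => sF σ ^ (i : ℕ) := by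
    intro i j hij
    have h1 : σ ^ (i : ℕ) = σ ^ (j : ℕ) := by
      ext x
      have h2 := congrArg (fun f : H ≃ₐ[FF σ] H => f x) hij
      simp only [sF_pow] at h2
      exact h2
    have h3 := pow_injOn_Iio_orderOf (x := σ) (by rw [hσ]; exact i.2) (by rw [hσ]; exact j.2) h1
    exact Fin.ext h3
  have hli := hb.comp _ hinj
  have hfr : finrank (FF σ) H = p := by
    rw [IntermediateField.finrank_fixedField_eq_card, Nat.card_zpowers, hσ]
  have : Nonempty (Fin p) := ⟨⟨0, hp.out.pos⟩⟩
  refine ⟨b, basisOfLinearIndependentOfCardEqFinrank hli (by rw [Fintype.card_fin, hfr]), ?_⟩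
  intro i
  rw [coe_basisOfLinearIndependentOfCardEqFinrank]
  exact sF_pow σ _ b

variable {σ : H ≃ₐ[ℚ_[p]] H} {b : H}

/-- The coordinates. -/
noncomputable def kap (e : Basis (Fin p) (FF σ) H) : H →ₗ[ℚ_[p]] (Fin p → H) where
  toFun x i := (e.repr x i : H)
  map_add' x y := by
    funext i
    simp
  map_smul' c x := by
    funext i
    have h1 : c • x = (algebraMap ℚ_[p] (FF σ) c) • x := by
      rw [algebraMap_smul]
    rw [h1, map_smul]
    simp only [Finsupp.smul_apply, smul_eq_mul, RingHom.id_apply, Pi.smul_apply]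
    rw [Algebra.smul_def]
    rfl

omit [IsUltrametricDist H] [FiniteDimensional ℚ_[p] H] in
theorem kap_apply (e : Basis (Fin p) (FF σ) H) (x : H) (i : Fin p) :
    kap e x i = (e.repr x i : H) := rfl

omit [IsUltrametricDist H] [FiniteDimensional ℚ_[p] H] in
theorem kap_smul (e : Basis (Fin p) (FF σ) H) (a : FF σ) (x : H) :
    kap e ((a : H) * x) = (a : H) • kap e x := by
  funext i
  have h1 : (a : H) * x = a • x := rfl
  rw [h1, kap_apply, map_smul]
  rfl

omit [IsUltrametricDist H] [FiniteDimensional ℚ_[p] H] in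
theorem kap_sum (e : Basis (Fin p) (FF σ) H) (x : H) : ∑ i, kap e x i * e i = x :=
  e.sum_repr x

omit [IsUltrametricDist H] [FiniteDimensional ℚ_[p] H] in
theorem kap_fix (e : Basis (Fin p) (FF σ) H) (x : H) (i : Fin p) : σ (kap e x i) = kap e x i :=
  (mem_FF σ _).1 (e.repr x i).2

omit [IsUltrametricDist H] [FiniteDimensional ℚ_[p] H] in
theorem kap_eq (e : Basis (Fin p) (FF σ) H) (c : Fin p → FF σ) :
    kap e (∑ i, (c i : H) * e i) = fun i => (c i : H) := by
  have h1 : ∑ i, (c i : H) * e i = ∑ i, c i • e i := rfl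
  funext i
  rw [h1, kap_apply, e.repr_sum_self]

omit [IsUltrametricDist H] [FiniteDimensional ℚ_[p] H] in
theorem basis_succ [NeZero p] (e : Basis (Fin p) (FF σ) H) (hσ : orderOf σ = p)
    (he : ∀ i, e i = (σ ^ (i : ℕ)) b) (i : Fin p) : σ (e i) = e (i + 1) := by
  rw [he, he]
  have h1 : ((i + 1 : Fin p) : ℕ) = ((i : ℕ) + 1) % p := by
    rw [Fin.val_add]
    rcases Nat.lt_or_ge 1 p with h | h
    · rw [Fin.val_one', Nat.mod_eq_of_lt h]
    · have := hp.out.one_lt
      omega
  have h2 : σ ^ ((i + 1 : Fin p) : ℕ) = σ ^ ((i : ℕ) + 1) := by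
    rw [h1]
    have := pow_mod_orderOf σ ((i : ℕ) + 1)
    rw [hσ] at this
    exact this
  rw [h2, pow_succ']
  rfl

omit [IsUltrametricDist H] [FiniteDimensional ℚ_[p] H] in
theorem kap_act [NeZero p] (e : Basis (Fin p) (FF σ) H) (hσ : orderOf σ = p)
    (he : ∀ i, e i = (σ ^ (i : ℕ)) b) (x : H) (i : Fin p) :
    kap e (σ x) (i + 1) = kap e x i := by
  have h1 : σ x = ∑ i, ((e.repr x (i - 1) : FF σ) : H) * e i := by
    conv_lhs => rw [← kap_sum e x]
    rw [map_sum]
    simp only [map_mul, kap_fix, basis_succ e hσ he]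
    rw [← Equiv.sum_comp (Equiv.addRight (1 : Fin p))
      (fun i => ((e.repr x (i - 1) : FF σ) : H) * e i)]
    refine Finset.sum_congr rfl fun i _ => ?_
    simp only [Equiv.coe_addRight, add_sub_cancel_right]
    rfl
  rw [h1, kap_eq]
  simp only [add_sub_cancel_right]
  rfl

/-- The constant. -/
noncomputable def cst (e : Basis (Fin p) (FF σ) H) : ℝ := 1 + ∑ i, ∑ j, ‖kap e (e i * e j)‖

omit [IsUltrametricDist H] [FiniteDimensional ℚ_[p] H] in
theorem cst_one (e : Basis (Fin p) (FF σ) H) : 1 ≤ cst e := by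
  unfold cst
  have : 0 ≤ ∑ i, ∑ j, ‖kap e (e i * e j)‖ :=
    Finset.sum_nonneg fun i _ => Finset.sum_nonneg fun j _ => norm_nonneg _
  linarith

omit [IsUltrametricDist H] [FiniteDimensional ℚ_[p] H] in
theorem cst_le (e : Basis (Fin p) (FF σ) H) (i j : Fin p) : ‖kap e (e i * e j)‖ ≤ cst e := by
  unfold cst
  have h1 : ‖kap e (e i * e j)‖ ≤ ∑ j, ‖kap e (e i * e j)‖ :=
    Finset.single_le_sum (f := fun j => ‖kap e (e i * e j)‖) (fun _ _ => norm_nonneg _)
      (Finset.mem_univ j)
  have h2 : ∑ j, ‖kap e (e i * e j)‖ ≤ ∑ i, ∑ j, ‖kap e (e i * e j)‖ :=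
    Finset.single_le_sum (f := fun i => ∑ j, ‖kap e (e i * e j)‖)
      (fun _ _ => Finset.sum_nonneg fun _ _ => norm_nonneg _) (Finset.mem_univ i)
  linarith

omit [FiniteDimensional ℚ_[p] H] in
theorem kap_mul_le (e : Basis (Fin p) (FF σ) H) (x y : H) :
    ‖kap e (x * y)‖ ≤ cst e * (‖kap e x‖ * ‖kap e y‖) := by
  have hc : 0 ≤ cst e := le_trans zero_le_one (cst_one e)
  have h1 : kap e (x * y) = ∑ i, ∑ j, (kap e x i * kap e y j) • kap e (e i * e j) := by
    have h2 : x * y = ∑ i, ∑ j, ((e.repr x i * e.repr y j : FF σ) : H) * (e i * e j) := by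
      conv_lhs => rw [← kap_sum e x, ← kap_sum e y]
      rw [Finset.sum_mul]
      refine Finset.sum_congr rfl fun i _ => ?_
      rw [Finset.mul_sum]
      refine Finset.sum_congr rfl fun j _ => ?_
      rw [kap_apply, kap_apply]
      push_cast
      ring
    rw [h2, map_sum]
    refine Finset.sum_congr rfl fun i _ => ?_
    rw [map_sum]
    refine Finset.sum_congr rfl fun j _ => ?_
    rw [kap_smul]
    rfl
  rw [h1]
  have hnn : 0 ≤ cst e * (‖kap e x‖ * ‖kap e y‖) := by positivity
  refine IsUltrametricDist.norm_sum_le_of_forall_le_of_nonneg hnn fun i _ => ?_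
  refine IsUltrametricDist.norm_sum_le_of_forall_le_of_nonneg hnn fun j _ => ?_
  rw [norm_smul, norm_mul, mul_comm]
  exact mul_le_mul (cst_le e i j) (mul_le_mul (norm_le_pi_norm _ i) (norm_le_pi_norm _ j)
    (norm_nonneg _) (norm_nonneg _)) (by positivity) hc

omit [IsUltrametricDist H] [FiniteDimensional ℚ_[p] H] in
theorem kap_act_norm [NeZero p] (e : Basis (Fin p) (FF σ) H) (hσ : orderOf σ = p)
    (he : ∀ i, e i = (σ ^ (i : ℕ)) b) (x : H) : ‖kap e (σ x)‖ = ‖kap e x‖ := by
  apply le_antisymm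
  · rw [pi_norm_le_iff_of_nonneg (norm_nonneg _)]
    intro i
    have h1 := kap_act e hσ he x (i - 1)
    rw [sub_add_cancel] at h1
    rw [h1]
    exact norm_le_pi_norm _ _
  · rw [pi_norm_le_iff_of_nonneg (norm_nonneg _)]
    intro i
    rw [← kap_act e hσ he x i]
    exact norm_le_pi_norm _ _

omit [IsUltrametricDist H] [FiniteDimensional ℚ_[p] H] in
theorem act_pow_coord [NeZero p] (e : Basis (Fin p) (FF σ) H) (hσ : orderOf σ = p)
    (he : ∀ i, e i = (σ ^ (i : ℕ)) b) (x : H) (n : ℕ) (i : Fin p) :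
    kap e ((σ ^ n) x) (i + n) = kap e x i := by
  induction n with
  | zero => simp
  | succ n ih =>
    have h1 : (σ ^ (n + 1)) x = σ ((σ ^ n) x) := by rw [pow_succ']; rfl
    rw [h1, Nat.cast_succ, ← add_assoc, kap_act e hσ he, ih]

omit [IsUltrametricDist H] [FiniteDimensional ℚ_[p] H] in
/-- The coordinates of the trace. -/
theorem kap_trace [NeZero p] (e : Basis (Fin p) (FF σ) H) (hσ : orderOf σ = p)
    (he : ∀ i, e i = (σ ^ (i : ℕ)) b) (x : H) (k : Fin p) :
    kap e (∑ n ∈ range p, (σ ^ n) x) k = ∑ i, kap e x i := by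
  rw [map_sum, Finset.sum_apply]
  have h1 : ∀ n : ℕ, kap e ((σ ^ n) x) k = kap e x (k - n) := by
    intro n
    have := act_pow_coord e hσ he x n (k - n)
    rwa [sub_add_cancel] at this
  simp only [h1]
  rw [← Fin.sum_univ_eq_sum_range (fun n => kap e x (k - (n : Fin p)))]
  rw [← Equiv.sum_comp (Equiv.subLeft k) (kap e x)]
  refine Finset.sum_congr rfl fun i _ => ?_
  rw [Equiv.subLeft_apply, Fin.cast_val_eq_self]

theorem exists_nrm (σ : H ≃ₐ[ℚ_[p]] H) (hσ : orderOf σ = p) :
    ∃ (N : H → ℝ) (B B' : ℝ), Nrm p σ N B B' := by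
  classical
  have : NeZero p := ⟨hp.out.ne_zero⟩
  obtain ⟨b, e, he⟩ := exists_basis σ hσ
  have hc1 := cst_one e
  have hc0 : 0 ≤ cst e := le_trans zero_le_one hc1
  let K := (kap e).toContinuousLinearMap
  have hK : ∀ x, K x = kap e x := fun _ => rfl
  refine ⟨fun x => cst e * ‖kap e x‖, ∑ i, ‖e i‖, cst e * ‖K‖, ?_⟩
  refine
    { nonneg := fun x => by positivity
      zero := by simp
      neg := fun x => by simp
      add := fun x y => ?_
      mul := fun x y => ?_
      inv := fun x => by rw [kap_act_norm e hσ he]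
      cont := continuous_const.mul (continuous_norm.comp K.continuous)
      B0 := Finset.sum_nonneg fun _ _ => norm_nonneg _
      B0' := by positivity
      hB := fun x => ?_
      hB' := fun x => ?_
      h0 := fun x hx => ?_
      h1 := fun x hx => ?_ }
  · rw [map_add, ← mul_max_of_nonneg _ _ hc0]
    exact mul_le_mul_of_nonneg_left (IsUltrametricDist.norm_add_le_max _ _) hc0
  · refine (mul_le_mul_of_nonneg_left (kap_mul_le e x y) hc0).trans (le_of_eq ?_)
    ring
  · conv_lhs => rw [← kap_sum e x]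
    refine (norm_sum_le _ _).trans ?_
    rw [Finset.sum_mul]
    refine Finset.sum_le_sum fun i _ => ?_
    rw [norm_mul, mul_comm]
    refine mul_le_mul_of_nonneg_left ?_ (norm_nonneg _)
    exact (norm_le_pi_norm _ i).trans (le_mul_of_one_le_left (norm_nonneg _) hc1)
  · rw [mul_assoc]
    exact mul_le_mul_of_nonneg_left (K.le_opNorm x) hc0
  · -- fixed elements are traces
    let a : FF σ := e.repr x 0
    have hall : ∀ i, kap e x i = (a : H) := by
      have h1 : ∀ i, kap e x (i + 1) = kap e x i := by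
        intro i
        have := kap_act e hσ he x i
        rwa [hx] at this
      have h2 : ∀ n : ℕ, kap e x (n : Fin p) = kap e x 0 := by
        intro n
        induction n with
        | zero => simp
        | succ n ih => rw [Nat.cast_succ, h1, ih]
      intro i
      have := h2 i
      rw [Fin.cast_val_eq_self] at this
      exact this
    have hk : kap e ((a : H) * e 0) = fun i => if i = 0 then (a : H) else 0 := by
      rw [kap_smul]
      funext i
      rw [Pi.smul_apply, kap_apply, e.repr_self, Finsupp.single_apply]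
      by_cases hi : i = 0
      · rw [if_pos hi, if_pos hi.symm]
        simp
      · rw [if_neg hi, if_neg (Ne.symm hi)]
        simp
    refine ⟨(a : H) * e 0, ?_, ?_⟩
    · have h3 : kap e (∑ n ∈ range p, (σ ^ n) ((a : H) * e 0)) = kap e x := by
        funext k
        rw [kap_trace e hσ he, hall, hk]
        simp
      conv_rhs => rw [← kap_sum e x]
      conv_lhs => rw [← kap_sum e (∑ n ∈ range p, (σ ^ n) ((a : H) * e 0))]
      rw [h3]
    · refine mul_le_mul_of_nonneg_left ?_ hc0
      rw [pi_norm_le_iff_of_nonneg (norm_nonneg _)]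
      intro i
      rw [hk]
      by_cases hi : i = 0
      · simp only [if_pos hi]
        rw [← hall 0]
        exact norm_le_pi_norm _ _
      · simp only [if_neg hi, norm_zero]
        exact norm_nonneg _
  · -- elements of trace zero
    have hs : ∑ i, e.repr x i = 0 := by
      apply Subtype.ext
      have h1 := kap_trace e hσ he x 0
      rw [hx, map_zero] at h1
      have h2 : ((∑ i, e.repr x i : FF σ) : H) = ∑ i, kap e x i := by
        push_cast
        rfl
      rw [h2, ← h1]
      rfl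
    -- the partial sums
    let c : ℕ → FF σ := fun n => e.repr x (n : Fin p)
    let y : Fin p → FF σ := fun i => - ∑ j ∈ range ((i : ℕ) + 1), c j
    have hsum : ∑ j ∈ range p, c j = 0 := by
      rw [← hs, ← Fin.sum_univ_eq_sum_range c]
      refine Finset.sum_congr rfl fun i _ => ?_
      show e.repr x ((i : ℕ) : Fin p) = _
      rw [Fin.cast_val_eq_self]
    have hy : ∀ i : Fin p, y i - y (i + 1) = e.repr x (i + 1) := by
      intro i
      by_cases hi : (i : ℕ) + 1 < p
      · have h1 : ((i + 1 : Fin p) : ℕ) = (i : ℕ) + 1 := by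
          rw [Fin.val_add, Fin.val_one', Nat.mod_eq_of_lt hp.out.one_lt, Nat.mod_eq_of_lt hi]
        have h2 : c ((i : ℕ) + 1) = e.repr x (i + 1) := by
          show e.repr x (((i : ℕ) + 1 : ℕ) : Fin p) = _
          rw [Nat.cast_succ, Fin.cast_val_eq_self]
        show (- ∑ j ∈ range ((i : ℕ) + 1), c j) - (- ∑ j ∈ range (((i + 1 : Fin p) : ℕ) + 1), c j) = _
        rw [h1, Finset.sum_range_succ _ ((i : ℕ) + 1), h2]
        ring
      · have hi' : (i : ℕ) + 1 = p := by have := i.2; omega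
        have h1 : (i + 1 : Fin p) = 0 := by
          apply Fin.ext
          rw [Fin.val_add, Fin.val_one', Nat.mod_eq_of_lt hp.out.one_lt, hi', Nat.mod_self,
            Fin.val_zero]
        have h2 : c 0 = e.repr x 0 := by
          show e.repr x ((0 : ℕ) : Fin p) = _
          rw [Nat.cast_zero]
        show (- ∑ j ∈ range ((i : ℕ) + 1), c j) - (- ∑ j ∈ range (((i + 1 : Fin p) : ℕ) + 1), c j) = _
        rw [h1, hi', hsum, Fin.val_zero, zero_add, Finset.sum_range_one, h2]
        ring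
    have hky : kap e (∑ i, ((y i : FF σ) : H) * e i) = fun i => ((y i : FF σ) : H) := kap_eq e y
    refine ⟨∑ i, ((y i : FF σ) : H) * e i, ?_, ?_⟩
    · have h3 : kap e (σ (∑ i, ((y i : FF σ) : H) * e i) - ∑ i, ((y i : FF σ) : H) * e i) =
          kap e x := by
        funext k
        rw [map_sub, Pi.sub_apply]
        have h4 := kap_act e hσ he (∑ i, ((y i : FF σ) : H) * e i) (k - 1)
        rw [sub_add_cancel] at h4
        rw [h4, hky]
        have h5 := congrArg (fun a : FF σ => (a : H)) (hy (k - 1))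
        simp only [sub_add_cancel] at h5
        rw [kap_apply, ← h5]
        rfl
      conv_rhs => rw [← kap_sum e x]
      conv_lhs => rw [← kap_sum e (σ (∑ i, ((y i : FF σ) : H) * e i) -
        ∑ i, ((y i : FF σ) : H) * e i)]
      rw [h3]
    · refine mul_le_mul_of_nonneg_left ?_ hc0
      rw [pi_norm_le_iff_of_nonneg (norm_nonneg _)]
      intro i
      rw [hky]
      show ‖((- ∑ j ∈ range ((i : ℕ) + 1), c j : FF σ) : H)‖ ≤ _
      have h6 : ((- ∑ j ∈ range ((i : ℕ) + 1), c j : FF σ) : H) =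
          - ∑ j ∈ range ((i : ℕ) + 1), kap e x (j : Fin p) := by
        push_cast
        rfl
      rw [h6, norm_neg]
      exact IsUltrametricDist.norm_sum_le_of_forall_le_of_nonneg (norm_nonneg _)
        fun j _ => norm_le_pi_norm _ _

end

end Pool.Agent.Helper6.PW
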